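import Pool.Agent.H60.CM.Basic

set_option autoImplicit false

open Set Function MeasureTheory Filter Topology
open scoped Manifold ContDiff Matrix
open Pool.Agent.H60.CM

namespace Pool.Agent.H63.CM

theorem pf_SYM (h1 : T_PAT) (h2 : T_PDF) (h3 : T_PFR) : T_SYM := by
  intro D p hp
  obtain ⟨O, ψ, y, hP, hy, hyp, -⟩ := h1 D p Set.univ hp isOpen_univ (Set.mem_univ p)
  obtain ⟨m00, m01, m10, m11, hdet, hm⟩ := h2 D O ψ hP y hy
  obtain ⟨-, hx0, hx1⟩ := hm V3 D.x D.cmc.x_smooth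
  obtain ⟨-, hn0, hn1⟩ := hm V3 D.N D.cmc.N_smooth
  have hF := h3 D O ψ hP y hy
  rw [hyp] at hx0 hx1 hn0 hn1
  have a0 := hF.nn0
  have a1 := hF.nn1
  have as := hF.sym
  rw [hyp, hn0, dotProduct_add, dotProduct_smul, dotProduct_smul, smul_eq_mul, smul_eq_mul] at a0
  rw [hyp, hn1, dotProduct_add, dotProduct_smul, dotProduct_smul, smul_eq_mul, smul_eq_mul] at a1
  rw [hx0, hx1, hn0, hn1] at as
  simp only [dotProduct_add, add_dotProduct, dotProduct_smul, smul_dotProduct, smul_eq_mul] at as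
  refine ⟨D.cmc.imm p, D.cmc.unit p, D.cmc.normal p 0, D.cmc.normal p 1, ?_, ?_, ?_, D.cmc.cmc p⟩
  · have : (m00 * m11 - m01 * m10) * (D.N p ⬝ᵥ dd D.N p 0) = 0 := by
      linear_combination m11 * a0 - m01 * a1
    exact (mul_eq_zero.1 this).resolve_left hdet
  · have : (m00 * m11 - m01 * m10) * (D.N p ⬝ᵥ dd D.N p 1) = 0 := by
      linear_combination m00 * a1 - m10 * a0
    exact (mul_eq_zero.1 this).resolve_left hdet
  · have : (m00 * m11 - m01 * m10) *
        (dd D.x p 0 ⬝ᵥ dd D.N p 1 - dd D.x p 1 ⬝ᵥ dd D.N p 0) = 0 := by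
      linear_combination as
    exact sub_eq_zero.1 ((mul_eq_zero.1 this).resolve_left hdet)

end Pool.Agent.H63.CM
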